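import Pool.Agent.L7h98.SY.All
import Pool.Agent.L7h25.SY.Eul

/-!
# Exact symmetry groups and f-vectors of 3-polytopes

For every finite group `G` of orthogonal 3×3 matrices the set `F(G) \ F̄(G)` is finite: apart from
finitely many exceptions, every f-vector of a `G`-invariant 3-polytope is the f-vector of a
3-polytope whose linear symmetry group is exactly `G`. This is the affirmative answer to Q1 of
MP_742c35_co.

Proof. Let `N = |G|`. A `G`-invariant 3-polytope is translated to a fixed interior point and
described by the dual pair (vertices, facets = vertices of the polar), both `G`-invariant finite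
sets. Put `s = 2f₀ - 4 - f₂ ≥ 0` and `t = 2f₂ - 4 - f₀ ≥ 0`.
(1) Stacking a point above every triangular facet of an orbit adds `(n, 2n)` to `(f₀, f₂)` (`n` the
length of the orbit), keeps the invariance, and the new vertices are simple and have the same
stabilizers; dually for the truncation of an orbit of simple vertices. A triangular facet with
trivial stabilizer yields a new one and a simple vertex with trivial stabilizer; so from a polytope
with such a facet all `(f₀ + (b + 2a)N, f₂ + (2b + a)N)`, `a ≥ 0`, `b ≥ 1` are reached.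
(2) Stacking four orbits of free triangular facets at generic points destroys all linear symmetries
outside `G`: a symmetry is determined by the images of three vertices of the old polytope, which
involve at most three of the four generic points, and the image of the fourth one shows that the
symmetry belongs to `G`.
(3) Every polytope has a triangular facet or a simple vertex. Stacking and truncating in turn `q`
times, `q` the order of the stabilizer, adds `(3N, 3N)` and gives a simple vertex whose stabilizer
has no element of order 3, from which two more steps give one with trivial stabilizer.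
(4) If `f₂ > f₀ + N`, then there are more than `2N` triangular facets, while at most `2N` facets are
fixed by rotations of order 3; so free triangular facets are reached by stacking only. Dually for
`f₀ > f₂ + N`.
(5) By Dickson's lemma for `(s, t)` modulo `3N` an infinite sequence of exceptions is impossible: if
both `s` and `t` tend to infinity use (3), if one of them is constant use (4).
Euler's formula and the bound `f₂ ≤ 2f₀ - 4` are proved by a sweep with a generic linear functional.

Authors: helper98 (proof, statements, assembly, parts of the proof), helper69 (dual pairs, generic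
points, linear symmetries), helper46 (stacking), helper65 (sweep, orbits), helper36 (orbit stacking
steps), helper12 (translation, Dickson's lemma, polar, fixed facets), helper25 (faces, edges, Euler's
formula).
-/

set_option autoImplicit false

namespace Pool.Agent.Results.MP_742c35_co.ExactSymmetryGroups

open Module

/-- A 3-polytope: the convex hull of finitely many points of `ℝ³` with nonempty interior. -/
def Is3Polytope (P : Set (EuclideanSpace ℝ (Fin 3))) : Prop :=
  ∃ S : Finset (EuclideanSpace ℝ (Fin 3)),
    P = convexHull ℝ (S : Set (EuclideanSpace ℝ (Fin 3))) ∧ (interior P).Nonempty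

/-- The number of `k`-dimensional faces of `P` (exposed faces; for a polytope these are all faces). -/
noncomputable def faceCount (k : ℕ) (P : Set (EuclideanSpace ℝ (Fin 3))) : ℕ :=
  {F : Set (EuclideanSpace ℝ (Fin 3)) |
    IsExposed ℝ P F ∧ F.Nonempty ∧ finrank ℝ (vectorSpan ℝ F) = k}.ncard

/-- The f-vector `(f₀, f₁, f₂)` of `P`: the numbers of vertices, edges and 2-faces. -/
noncomputable def fvec (P : Set (EuclideanSpace ℝ (Fin 3))) : ℕ × ℕ × ℕ :=
  (faceCount 0 P, faceCount 1 P, faceCount 2 P)

/-- The linear symmetry group of `P`: the set of the real 3×3 matrices `A` with `A · P = P`. -/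
def Symm (P : Set (EuclideanSpace ℝ (Fin 3))) : Set (Matrix (Fin 3) (Fin 3) ℝ) :=
  {A | Matrix.toEuclideanLin A '' P = P}

/-- `F(G)`: the f-vectors of the 3-polytopes `P` with `G ⊆ Symm P`. -/
def FInv (G : Subgroup (Matrix.orthogonalGroup (Fin 3) ℝ)) : Set (ℕ × ℕ × ℕ) :=
  {f | ∃ P, Is3Polytope P ∧ (∀ g ∈ G, (g : Matrix (Fin 3) (Fin 3) ℝ) ∈ Symm P) ∧ f = fvec P}

/-- `F̄(G)`: the f-vectors of the 3-polytopes `P` with `Symm P = G` (equality of sets of
matrices). -/
def FExact (G : Subgroup (Matrix.orthogonalGroup (Fin 3) ℝ)) : Set (ℕ × ℕ × ℕ) :=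
  {f | ∃ P, Is3Polytope P ∧
    Symm P = {A : Matrix (Fin 3) (Fin 3) ℝ | ∃ g ∈ G, (g : Matrix (Fin 3) (Fin 3) ℝ) = A} ∧
    f = fvec P}

/-- orthogonal matrices as linear isometries -/
noncomputable def toIso : Matrix.orthogonalGroup (Fin 3) ℝ →*
    (EuclideanSpace ℝ (Fin 3) ≃ₗᵢ[ℝ] EuclideanSpace ℝ (Fin 3)) where
  toFun g := Unitary.linearIsometryEquiv
    ⟨Matrix.toEuclideanCLM (n := Fin 3) (𝕜 := ℝ) (g : Matrix (Fin 3) (Fin 3) ℝ),
      Unitary.map_mem (Matrix.toEuclideanCLM (n := Fin 3) (𝕜 := ℝ)) g.2⟩
  map_one' := LinearIsometryEquiv.ext fun x => by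
    show Matrix.toEuclideanCLM (n := Fin 3) (𝕜 := ℝ)
      ((1 : Matrix.orthogonalGroup (Fin 3) ℝ) : Matrix (Fin 3) (Fin 3) ℝ) x = x
    rw [OneMemClass.coe_one, map_one]
    rfl
  map_mul' g h := LinearIsometryEquiv.ext fun x => by
    show Matrix.toEuclideanCLM (n := Fin 3) (𝕜 := ℝ)
      ((g * h : Matrix.orthogonalGroup (Fin 3) ℝ) : Matrix (Fin 3) (Fin 3) ℝ) x = _
    rw [Submonoid.coe_mul, map_mul]
    rfl

theorem lin_toIso (g : Matrix.orthogonalGroup (Fin 3) ℝ) :
    Pool.Agent.L7h98.SY.lin (toIso g) =
      Matrix.toEuclideanLin (g : Matrix (Fin 3) (Fin 3) ℝ) := rfl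

/-- **The answer to Q1 is YES**: for every finite subgroup `G` of `O(3)` the set `F(G) \ F̄(G)` is
finite. -/
theorem result (G : Subgroup (Matrix.orthogonalGroup (Fin 3) ℝ)) [Finite G] :
    (FInv G \ FExact G).Finite := by
  have hfin : Finite (G.map toIso) :=
    Finite.of_surjective (fun g : G => (⟨toIso g, Subgroup.mem_map_of_mem _ g.2⟩ : G.map toIso))
      (by
        rintro ⟨_, g, hg, rfl⟩
        exact ⟨⟨g, hg⟩, rfl⟩)
  have key := Pool.Agent.L7h98.SY.triples_finite
    (Pool.Agent.L7h25.SY.s_EUL Pool.Agent.L7h98.SY.all_BAS Pool.Agent.L7h98.SY.all_SW)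
    (G.map toIso)
  refine key.subset ?_
  rintro f ⟨⟨P, hP, hG, rfl⟩, hn⟩
  refine ⟨⟨P, hP, ?_, rfl⟩, ?_⟩
  · rintro _ ⟨g, hg, rfl⟩
    exact hG g hg
  · rintro ⟨P', hP', hS, he⟩
    refine hn ⟨P', hP', ?_, he⟩
    ext A
    have h1 : A ∈ Symm P' ↔ Matrix.toEuclideanLin A ∈ Pool.Agent.L7h98.SY.Symm P' := Iff.rfl
    rw [h1, hS]
    constructor
    · rintro ⟨_, ⟨g, hg, rfl⟩, hA⟩
      exact ⟨g, hg, Matrix.toEuclideanLin.injective hA⟩
    · rintro ⟨g, hg, rfl⟩
      exact ⟨toIso g, ⟨g, hg, rfl⟩, rfl⟩

end Pool.Agent.Results.MP_742c35_co.ExactSymmetryGroups
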